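import Pool.Agent.H355R3.UF.Final

/-!
# Factorizations of formations whose groups have nilpotent `e`-th power subgroup

Existence criterion and uniqueness of the factorization into non-decomposable formations, for all
formations `F` such that for some `e > 0` the subgroup generated by the `e`-th powers is nilpotent,
for every group in `F`.
-/

set_option autoImplicit false

namespace Pool.Agent.Y692.UF

open H355R3 H355R3.UF RegularWreathProduct

/-- bounded factorization length gives a factorization into non-decomposable formations -/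
theorem prod_of_bdd (F : Formation) (hF : Bdd F) :
    ∃ l : List Formation, (∀ A ∈ l, Indec A) ∧ F = l.prod := by
  classical
  by_cases h1 : F = 1
  · exact ⟨[], by simp, by simp [h1]⟩
  obtain ⟨N, hN⟩ := hF
  let S : Set ℕ := {n | ∃ l : List Formation, (∀ A ∈ l, A ≠ 1) ∧ l.prod = F ∧ l.length = n}
  have hSne : S.Nonempty := ⟨1, [F], by simpa using h1, by simp, by simp⟩
  have hSb : BddAbove S := by
    refine ⟨N, ?_⟩
    rintro n ⟨l, hl, hp, rfl⟩
    exact hN l hl hp
  obtain ⟨l, hl, hp, hlen⟩ := Nat.sSup_mem hSne hSb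
  refine ⟨l, ?_, hp.symm⟩
  intro A hA
  refine ⟨hl A hA, ?_⟩
  rintro ⟨B, C, hB1, hC1, hBC⟩
  obtain ⟨s, t, rfl⟩ := List.append_of_mem hA
  have h2 : (s ++ B :: C :: t).length ∈ S := by
    refine ⟨s ++ B :: C :: t, ?_, ?_, rfl⟩
    · intro D hD
      rw [List.mem_append, List.mem_cons, List.mem_cons] at hD
      rcases hD with hD | rfl | rfl | hD
      · exact hl D (by simp [hD])
      · exact hB1
      · exact hC1
      · exact hl D (by simp [hD])
    · rw [← hp, List.prod_append, List.prod_append, List.prod_cons, List.prod_cons,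
        List.prod_cons, hBC, mul_assoc]
  have h3 := le_csSup hSb h2
  rw [← hlen] at h3
  simp only [List.length_append, List.length_cons] at h3
  omega

theorem nonAbs_of_ne {F : Formation} (h : ∀ p : ℕ, p.Prime → pForm p * F ≠ F) : NonAbs F := by
  intro p hp
  by_contra hc
  push Not at hc
  exact h p hp.out (pForm_mul_of_abs all.tB (fun V _ _ hV => hc V _ _ hV))

theorem ne_of_nonAbs {F : Formation} (h : NonAbs F) (p : ℕ) (hp : p.Prime) :
    pForm p * F ≠ F := by
  intro hF
  have : Fact p.Prime := ⟨hp⟩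
  obtain ⟨V, i, f, hV, hV'⟩ := h p
  apply hV'
  rw [← hF]
  haveI : IsSimpleGroup (Zp p) := isSimpleGroup_of_prime_card (p := p) (card_Zp p)
  exact wreath_mem _ _ (Zp_isPGroup p) hV

theorem gen (e : ℕ) (he : 0 < e) (F : Formation) (hF : NilPow e F) :
    ((∃ l : List Formation, (∀ A ∈ l, Indec A) ∧ F = l.prod) ↔
      ∀ p : ℕ, p.Prime → pForm p * F ≠ F) ∧
    ∀ l l' : List Formation, (∀ A ∈ l, Indec A) → (∀ A ∈ l', Indec A) → F = l.prod →
      F = l'.prod → l = l' := by
  refine ⟨⟨?_, ?_⟩, ?_⟩
  · rintro ⟨l, hl, rfl⟩ p hp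
    exact ne_of_nonAbs (nonAbs_prod all.tB all.tQ all.tK he l hl hF) p hp
  · intro h
    exact prod_of_bdd F (bdd_of_nonAbs he hF (nonAbs_of_ne h))
  · intro l l' hl hl' h h'
    refine unique_aux all he l l' hl hl' (by rw [← h]; exact hF) (by rw [← h, ← h'])

theorem oneGen (M : Formation) (hM : M.OneGeneratedSaturated) :
    ∃ e : ℕ, 0 < e ∧ NilPow e M := by
  obtain ⟨G₀, i₀, f₀, h₀⟩ := hM
  refine ⟨Monoid.exponent G₀, Nat.pos_of_ne_zero Monoid.exponent_ne_zero_of_finite, ?_⟩
  intro X _ _ hX
  refine (h₀ X).1 hX (nilPowForm (Monoid.exponent G₀)) (nilPowForm_saturated _) ?_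
  show Group.IsNilpotent (powSub (Monoid.exponent G₀) G₀)
  have : powSub (Monoid.exponent G₀) G₀ = ⊥ := by
    rw [powSub_eq_bot_iff]
    exact fun x => Monoid.pow_exponent_eq_one x
  rw [this]
  infer_instance

end Pool.Agent.Y692.UF
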